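import Pool.Agent.Q161.OD.Stm

/-!
# OD Z1 (helper225): integers without prime factors in a set with divergent sum of reciprocals
-/

set_option autoImplicit false

namespace Pool.Agent.Q225.OD

open Finset Pool.Agent.Q161.OD Pool.Agent.Q51.EL

theorem z1 : S_Z1 := by
  classical
  intro P hP ε hε
  obtain ⟨Y, hY⟩ := hP.2 (Real.log (2 / ε))
  set F : Finset ℕ := (pr Y).filter (fun l => l ∈ P) with hF
  have hFp : ∀ l ∈ F, l.Prime := fun l hl => hP.1 l (Finset.mem_filter.1 hl).2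
  set Q : ℕ := ∏ l ∈ F, l with hQ
  have hQ0 : Q ≠ 0 := Finset.prod_ne_zero_iff.2 fun l hl => (hFp l hl).ne_zero
  have hQF : Q.primeFactors = F := Nat.primeFactors_prod hFp
  have hQ1 : (1 : ℝ) ≤ Q := by exact_mod_cast Nat.one_le_iff_ne_zero.2 hQ0
  have htot : (Nat.totient Q : ℝ) ≤ Q * (ε / 2) := by
    have h1 : (Nat.totient Q : ℝ) = Q * ∏ p ∈ F, (1 - (p : ℝ)⁻¹) := by
      have := Nat.totient_eq_mul_prod_factors Q
      rw [hQF] at this
      have h2 := congrArg (fun x : ℚ => (x : ℝ)) this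
      push_cast at h2
      exact h2
    rw [h1]
    refine mul_le_mul_of_nonneg_left ?_ (by positivity)
    calc ∏ p ∈ F, (1 - (p : ℝ)⁻¹) ≤ ∏ p ∈ F, Real.exp (-(1 / (p : ℝ))) := by
          refine Finset.prod_le_prod (fun p hp => ?_) fun p hp => ?_
          · have h2 : (1 : ℝ) ≤ p := by exact_mod_cast (hFp p hp).one_lt.le
            have := inv_le_one_of_one_le₀ h2
            linarith
          · have := Real.add_one_le_exp (-(1 / (p : ℝ)))
            rw [one_div] at this ⊢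
            linarith
      _ = Real.exp (-∑ p ∈ F, 1 / (p : ℝ)) := by
          rw [← Real.exp_sum, Finset.sum_neg_distrib]
      _ ≤ Real.exp (-Real.log (2 / ε)) := Real.exp_le_exp.2 (neg_le_neg hY)
      _ = ε / 2 := by
          rw [← Real.log_inv, Real.exp_log (by positivity), inv_div]
  refine ⟨Q, fun X hX => ?_⟩
  have hX0 : 0 ≤ X := by linarith
  have hsub : (Icc 1 ⌊X⌋₊).filter (fun m : ℕ => ∀ l ∈ P, ¬ l ∣ m) ⊆
      (Ico 1 (1 + ⌊X⌋₊)).filter (fun m => Q.Coprime m) := by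
    intro m hm
    rw [Finset.mem_filter, Finset.mem_Icc] at hm
    rw [Finset.mem_filter, Finset.mem_Ico]
    refine ⟨⟨hm.1.1, by omega⟩, ?_⟩
    rw [hQ]
    refine Nat.Coprime.prod_left fun l hl => ?_
    exact (Nat.Prime.coprime_iff_not_dvd (hFp l hl)).2 (hm.2 l (Finset.mem_filter.1 hl).2)
  have h3 := (Finset.card_le_card hsub).trans (Nat.Ico_filter_coprime_le 1 ⌊X⌋₊ hQ0)
  have h4 : (((Icc 1 ⌊X⌋₊).filter (fun m : ℕ => ∀ l ∈ P, ¬ l ∣ m)).card : ℝ) ≤
      (Nat.totient Q : ℝ) * ((⌊X⌋₊ / Q : ℕ) + 1) := by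
    exact_mod_cast h3
  refine h4.trans ?_
  have h5 : ((⌊X⌋₊ / Q : ℕ) : ℝ) ≤ X / Q := by
    refine Nat.cast_div_le.trans ?_
    gcongr
    exact Nat.floor_le hX0
  calc (Nat.totient Q : ℝ) * ((⌊X⌋₊ / Q : ℕ) + 1) ≤ (Q * (ε / 2)) * (X / Q + 1) := by
        gcongr
    _ = ε / 2 * (X + Q) := by
        field_simp
    _ ≤ ε * X := by nlinarith

end Pool.Agent.Q225.OD
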