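import Pool.Agent.Q40.OD.Stm1

/-!
# Project OD, job OD-6: regularity of the charts, the other cases
-/

set_option autoImplicit false
set_option linter.unusedSectionVars false
set_option linter.unusedVariables false

namespace Pool.Agent.Q225.OD

open Pool.Agent.Q40.OD Pool.Agent.H918R2.Quad MvPolynomial

/-- A derivation maps the square of an ideal to the ideal. -/
theorem der_sq {κ C' : Type} [CommRing κ] [CommRing C'] [Algebra κ C'] (Z : Ideal C')
    (D : Derivation κ C' C') {x : C'} (hx : x ∈ Z ^ 2) : D x ∈ Z := by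
  rw [pow_two] at hx
  refine Submodule.mul_induction_on hx ?_ ?_
  · intro m hm n hn
    rw [Derivation.leibniz, smul_eq_mul, smul_eq_mul]
    exact Z.add_mem (Z.mul_mem_right _ hm) (Z.mul_mem_right _ hn)
  · intro x y hx hy
    rw [map_add]
    exact Z.add_mem hx hy

theorem der_mem {κ C' : Type} [CommRing κ] [CommRing C'] [Algebra κ C'] (Z : Ideal C') [Z.IsPrime]
    (D : Derivation κ C' C') {c x : C'} (hc : c ∉ Z) (hx : x ∈ Z) (h : c * x ∈ Z ^ 2) :
    D x ∈ Z := by
  have h1 := der_sq Z D h
  rw [Derivation.leibniz, smul_eq_mul, smul_eq_mul] at h1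
  have h2 : c * D x ∈ Z := (Z.add_mem_iff_left (Z.mul_mem_right _ hx)).1 h1
  exact (Ideal.IsPrime.mem_or_mem inferInstance h2).resolve_left hc

/-- Euler's relation and the adjugate. -/
theorem core {τ C' : Type} [Fintype τ] [DecidableEq τ] [CommRing C'] (Z : Ideal C')
    (q : τ → τ → C') (s : τ → C') (i : τ) (hs : s i = 1)
    (h2 : 2 * ∑ a, ∑ b, q a b * s a * s b ∈ Z)
    (hd : ∀ b, b ≠ i → ∑ a, (q a b + q b a) * s a ∈ Z) :
    (Matrix.of fun a b => q a b + q b a).det ∈ Z := by
  have euler : ∑ b, s b * ∑ a, (q a b + q b a) * s a = 2 * ∑ a, ∑ b, q a b * s a * s b := by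
    have e1 : ∑ b, s b * ∑ a, (q a b + q b a) * s a
        = ∑ b, ∑ a, q a b * s a * s b + ∑ b, ∑ a, q b a * s b * s a := by
      rw [← Finset.sum_add_distrib]
      refine Finset.sum_congr rfl fun b _ => ?_
      rw [Finset.mul_sum, ← Finset.sum_add_distrib]
      refine Finset.sum_congr rfl fun a _ => ?_
      ring
    rw [e1, Finset.sum_comm (f := fun b a => q a b * s a * s b), two_mul]
  have hall : ∀ b, ∑ a, (q a b + q b a) * s a ∈ Z := by
    intro b
    by_cases hb : b = i
    · subst hb
      rw [← euler, ← Finset.add_sum_erase _ _ (Finset.mem_univ b), hs, one_mul] at h2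
      refine (Z.add_mem_iff_left ?_).1 h2
      exact Z.sum_mem fun c hc => Z.mul_mem_left _ (hd c (Finset.ne_of_mem_erase hc))
    · exact hd b hb
  obtain ⟨M, hM⟩ : ∃ M : Matrix τ τ C', M = Matrix.of fun a b => q a b + q b a := ⟨_, rfl⟩
  rw [← hM]
  have h3 : M.adjugate.mulVec (M.mulVec s) i = M.det := by
    rw [Matrix.mulVec_mulVec, Matrix.adjugate_mul, Matrix.smul_mulVec, Matrix.one_mulVec,
      Pi.smul_apply, hs, smul_eq_mul, mul_one]
  rw [← h3]
  show ∑ b, M.adjugate i b * (∑ a, M b a * s a) ∈ Z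
  refine Z.sum_mem fun b _ => Z.mul_mem_left _ ?_
  have h4 : ∑ a, M b a * s a = ∑ a, (q a b + q b a) * s a := by
    refine Finset.sum_congr rfl fun a _ => ?_
    rw [hM, Matrix.of_apply, add_comm]
  rw [h4]
  exact hall b

/-- The derivative of the quadratic form. -/
theorem der_form {κ C' τ : Type} [Fintype τ] [DecidableEq τ] [CommRing κ] [CommRing C']
    [Algebra κ C'] (D : Derivation κ C' C') (q : τ → τ → κ) (s : τ → C') (b : τ)
    (hD : ∀ a, D (s a) = if a = b then 1 else 0) :
    D (∑ a, ∑ c, algebraMap κ C' (q a c) * s a * s c)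
      = ∑ a, (algebraMap κ C' (q a b) + algebraMap κ C' (q b a)) * s a := by
  have h1 : ∀ a c, D (algebraMap κ C' (q a c) * s a * s c)
      = (if c = b then algebraMap κ C' (q a c) * s a else 0)
        + (if a = b then algebraMap κ C' (q a c) * s c else 0) := by
    intro a c
    rw [Derivation.leibniz, Derivation.leibniz, Derivation.map_algebraMap, hD, hD]
    simp only [smul_eq_mul, mul_zero, add_zero]
    split_ifs <;> ring
  rw [map_sum]
  simp only [map_sum, h1, Finset.sum_add_distrib, Finset.sum_ite_eq', Finset.mem_univ, if_true]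
  have h2 : ∑ a, ∑ c, (if a = b then algebraMap κ C' (q a c) * s c else 0)
      = ∑ c, algebraMap κ C' (q b c) * s c := by
    rw [Finset.sum_comm]
    refine Finset.sum_congr rfl fun c _ => ?_
    rw [Finset.sum_ite_eq' Finset.univ b, if_pos (Finset.mem_univ _)]
  rw [h2, ← Finset.sum_add_distrib]
  refine Finset.sum_congr rfl fun a _ => ?_
  ring

theorem der_form_zero {κ C' τ : Type} [Fintype τ] [CommRing κ] [CommRing C']
    [Algebra κ C'] (D : Derivation κ C' C') (q : τ → τ → κ) (s : τ → C')
    (hD : ∀ a, D (s a) = 0) :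
    D (∑ a, ∑ c, algebraMap κ C' (q a c) * s a * s c) = 0 := by
  rw [map_sum]
  refine Finset.sum_eq_zero fun a _ => ?_
  rw [map_sum]
  refine Finset.sum_eq_zero fun c _ => ?_
  rw [Derivation.leibniz, Derivation.leibniz, Derivation.map_algebraMap, hD, hD]
  simp

section th

variable {S τ ρ : Type} [CommRing S] (Q : Ideal S)

/-- The specialization. -/
noncomputable def th (f : Option τ → MvPolynomial ρ (S ⧸ Q)) :
    MvPolynomial (Option τ) S →+* MvPolynomial ρ (S ⧸ Q) :=
  eval₂Hom (C.comp (Ideal.Quotient.mk Q)) f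

theorem th_C (f : Option τ → MvPolynomial ρ (S ⧸ Q)) (x : S) :
    th Q f (C x) = C (Ideal.Quotient.mk Q x) := by
  unfold th
  rw [eval₂Hom_C]
  rfl

theorem th_X (f : Option τ → MvPolynomial ρ (S ⧸ Q)) (o : Option τ) : th Q f (X o) = f o := by
  unfold th
  rw [eval₂Hom_X']

theorem th_surj {f : Option τ → MvPolynomial ρ (S ⧸ Q)} {g : ρ → Option τ}
    (hg : ∀ r, f (g r) = X r) : Function.Surjective (th Q f) := by
  intro y
  induction y using MvPolynomial.induction_on with
  | C a =>
    obtain ⟨x, rfl⟩ := Ideal.Quotient.mk_surjective a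
    exact ⟨C x, th_C Q f x⟩
  | add p q hp hq =>
    obtain ⟨x, rfl⟩ := hp
    obtain ⟨y, rfl⟩ := hq
    exact ⟨x + y, map_add _ _ _⟩
  | mul_X p r hp =>
    obtain ⟨x, rfl⟩ := hp
    exact ⟨x * X (g r), by rw [map_mul, th_X, hg]⟩

theorem ker_th {f : Option τ → MvPolynomial ρ (S ⧸ Q)} {g : ρ → Option τ}
    (hf : ∀ o, f o = 0 ∨ ∃ r, f o = X r ∧ g r = o) {x : MvPolynomial (Option τ) S}
    (hx : th Q f x = 0) :
    x ∈ Ideal.span (X '' {o | f o = 0} : Set (MvPolynomial (Option τ) S)) ⊔ Q.map C := by
  obtain ⟨I, hI⟩ : ∃ I, I = Ideal.span (X '' {o | f o = 0} : Set (MvPolynomial (Option τ) S)) ⊔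
    Q.map C := ⟨_, rfl⟩
  rw [← hI]
  let σ₀ : S ⧸ Q →+* MvPolynomial (Option τ) S ⧸ I :=
    Ideal.Quotient.lift Q ((Ideal.Quotient.mk I).comp C) (by
      intro a ha
      rw [RingHom.comp_apply, Ideal.Quotient.eq_zero_iff_mem, hI]
      exact Ideal.mem_sup_right (Ideal.mem_map_of_mem _ ha))
  let σ : MvPolynomial ρ (S ⧸ Q) →+* MvPolynomial (Option τ) S ⧸ I :=
    eval₂Hom σ₀ (fun r => Ideal.Quotient.mk I (X (g r)))
  have h1 : σ.comp (th Q f) = Ideal.Quotient.mk I := by
    refine MvPolynomial.ringHom_ext ?_ ?_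
    · intro r
      rw [RingHom.comp_apply, th_C]
      show eval₂Hom σ₀ _ (C _) = _
      rw [eval₂Hom_C]
      exact Ideal.Quotient.lift_mk _ _ _
    · intro o
      rw [RingHom.comp_apply, th_X]
      rcases hf o with h | ⟨r, h, hr⟩
      · rw [h, map_zero]
        symm
        rw [Ideal.Quotient.eq_zero_iff_mem, hI]
        exact Ideal.mem_sup_left (Ideal.subset_span ⟨o, h, rfl⟩)
      · rw [h]
        show eval₂Hom σ₀ _ (X r) = _
        rw [eval₂Hom_X', hr]
  have h2 := congrArg (fun φ => φ x) h1
  simp only [RingHom.comp_apply, hx, map_zero] at h2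
  exact Ideal.Quotient.eq_zero_iff_mem.1 h2.symm

end th

section main

variable {S τ A ρ : Type} [CommRing S] [IsDomain S] [IsNoetherianRing S] [Fintype τ]
    [DecidableEq τ] [CommRing A] [Finite ρ]

theorem main (Q : Ideal S) [hQm : Q.IsMaximal] (π : S) (D : τ → S) (hπ : π ∈ Q)
    (hD : ∀ a, D a ∈ Q)
    (hgen : ∀ x ∈ Q, ∃ c, c ∉ Q ∧ c * x ∈ Ideal.span (insert π (Set.range D)))
    (q : τ → τ → S) (hq : (Matrix.of fun a b => q a b + q b a).det ∉ Q) (u : S) (hu : u ∉ Q)
    (i : τ) (k v : ℕ) (hv : 2 * k ≤ v) (hv1 : 1 ≤ v)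
    (pr : MvPolynomial (Option τ) S →+* A) (hpr : Function.Surjective pr)
    (hker : RingHom.ker pr = Ideal.span (insert (EE q u i k v) (rels π D k i)))
    (p : Ideal A) [hp : p.IsPrime] (hpQ : ∀ x : S, pr (C x) ∈ p ↔ x ∈ Q)
    (hT : v = 2 * k + 1 → pr (X (some i)) ∉ p)
    (f : Option τ → MvPolynomial ρ (S ⧸ Q)) (g : ρ → Option τ) (hg : ∀ r, f (g r) = X r)
    (hf : ∀ o, f o = 0 ∨ ∃ r, f o = X r ∧ g r = o)
    (hfn : f none = 0) (hfb : ∀ b, b ≠ i → ∃ r, f (some b) = X r ∧ g r = some b)
    (a : Finset (MvPolynomial (Option τ) S)) (ha1 : X none ∈ a) (ha2 : ∀ o, f o = 0 → X o ∈ a)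
    (ha3 : ∀ x ∈ a, pr x ∈ p) (ha4 : pr (X (some i)) ∈ p → X (some i) ∈ a)
    (hcard : ((a.card + (Fintype.card τ + 2) : ℕ) : ℕ∞) ≤ (RingHom.ker (th Q f)).height + 1) :
    IsRegularLocalRing (Localization.AtPrime p) := by
  classical
  let _ : Field (S ⧸ Q) := Ideal.Quotient.field Q
  have _ : IsRegularRing (MvPolynomial ρ (S ⧸ Q)) := inferInstance
  have hkerle : RingHom.ker (th Q f) ≤ p.comap pr := by
    intro x hx
    have h1 := ker_th Q hf (RingHom.mem_ker.1 hx)
    have h2 : Ideal.span (X '' {o | f o = 0} : Set (MvPolynomial (Option τ) S)) ⊔ Q.map C ≤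
        p.comap pr := by
      apply sup_le
      · rw [Ideal.span_le]
        rintro _ ⟨o, ho, rfl⟩
        exact ha3 _ (ha2 o ho)
      · rw [Ideal.map_le_iff_le_comap]
        intro y hy
        exact (hpQ y).2 hy
    exact h2 h1
  -- relations
  have hrelπ : pr (C π) = pr (X none) * pr (X (some i)) := by
    have h1 : C π - X none * X (some i) ∈ RingHom.ker pr := by
      rw [hker]
      exact Ideal.subset_span (Set.mem_insert_of_mem _ (Set.mem_insert _ _))
    rw [RingHom.mem_ker, map_sub, sub_eq_zero, map_mul] at h1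
    exact h1
  have hrelD : ∀ b, pr (C (D b)) = pr (X none) ^ k * pr (X (some i)) ^ (k + 1) *
      pr (sv S i b) := by
    intro b
    have h1 : C (D b) - X none ^ k * X (some i) ^ (k + 1) * sv S i b ∈ RingHom.ker pr := by
      rw [hker]
      exact Ideal.subset_span (Set.mem_insert_of_mem _ (Set.mem_insert_of_mem _ ⟨b, rfl⟩))
    rw [RingHom.mem_ker, map_sub, sub_eq_zero, map_mul, map_mul, map_pow, map_pow] at h1
    exact h1
  have hkT : k = 0 → pr (X (some i)) ∈ p := by
    intro hk
    have h1 := hrelD i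
    rw [hk, pow_zero, one_mul, zero_add, pow_one] at h1
    unfold sv at h1
    rw [if_pos rfl, map_one, mul_one] at h1
    rw [← h1]
    exact (hpQ _).2 (hD i)
  -- local generation
  have hsingle : ∀ y ∈ Q, pr (C y) ∈ p := fun y hy => (hpQ y).2 hy
  obtain ⟨J, hJ⟩ : ∃ J, J = Ideal.span (pr '' (a : Set (MvPolynomial (Option τ) S))) := ⟨_, rfl⟩
  have hwJ : pr (X none) ∈ J := by rw [hJ]; exact Ideal.subset_span ⟨_, ha1, rfl⟩
  have hDJ : ∀ b, pr (C (D b)) ∈ J := by
    intro b
    rw [hrelD b]
    by_cases hTp : pr (X (some i)) ∈ p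
    · have h1 : pr (X (some i)) ∈ J := by rw [hJ]; exact Ideal.subset_span ⟨_, ha4 hTp, rfl⟩
      refine J.mul_mem_right _ (J.mul_mem_left _ ?_)
      rw [pow_succ]
      exact J.mul_mem_left _ h1
    · have hk : k ≠ 0 := fun h => hTp (hkT h)
      obtain ⟨k', rfl⟩ := Nat.exists_eq_succ_of_ne_zero hk
      refine J.mul_mem_right _ (J.mul_mem_right _ ?_)
      rw [Nat.succ_eq_add_one, pow_succ]
      exact J.mul_mem_left _ hwJ
  have hloc : ∀ x ∈ RingHom.ker (th Q f), ∃ c, pr c ∉ p ∧
      pr (c * x) ∈ Ideal.span (pr '' (a : Set (MvPolynomial (Option τ) S))) := by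
    rw [← hJ]
    let L : Ideal (MvPolynomial (Option τ) S) :=
      { carrier := {x | ∃ c, pr c ∉ p ∧ pr (c * x) ∈ J}
        zero_mem' := ⟨1, by rw [map_one]; exact (Ideal.ne_top_iff_one p).1 hp.ne_top, by simp⟩
        add_mem' := by
          rintro x y ⟨c, hc, hcx⟩ ⟨d, hd, hdy⟩
          refine ⟨c * d, ?_, ?_⟩
          · rw [map_mul]
            intro h
            rcases hp.mem_or_mem h with h | h
            · exact hc h
            · exact hd h
          · rw [show c * d * (x + y) = d * (c * x) + c * (d * y) by ring, map_add, map_mul,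
              map_mul pr c (d * y)]
            exact J.add_mem (J.mul_mem_left _ hcx) (J.mul_mem_left _ hdy)
        smul_mem' := by
          rintro r x ⟨c, hc, hcx⟩
          refine ⟨c, hc, ?_⟩
          rw [smul_eq_mul, show c * (r * x) = r * (c * x) by ring, map_mul]
          exact J.mul_mem_left _ hcx }
    intro x hx
    have h1 := ker_th Q hf (RingHom.mem_ker.1 hx)
    have h2 : Ideal.span (X '' {o | f o = 0} : Set (MvPolynomial (Option τ) S)) ⊔ Q.map C ≤ L := by
      apply sup_le
      · rw [Ideal.span_le]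
        rintro _ ⟨o, ho, rfl⟩
        refine ⟨1, by rw [map_one]; exact (Ideal.ne_top_iff_one p).1 hp.ne_top, ?_⟩
        rw [one_mul, hJ]
        exact Ideal.subset_span ⟨_, ha2 o ho, rfl⟩
      · rw [Ideal.map_le_iff_le_comap]
        intro y hy
        obtain ⟨c, hc, hcy⟩ := hgen y hy
        refine ⟨C c, fun h => hc ((hpQ c).1 h), ?_⟩
        have h3 : Ideal.span (insert π (Set.range D)) ≤ J.comap (pr.comp C) := by
          rw [Ideal.span_le]
          rintro z (rfl | ⟨b, rfl⟩)
          · show pr (C z) ∈ J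
            rw [hrelπ]
            exact J.mul_mem_right _ hwJ
          · exact hDJ b
        have h4 := h3 hcy
        rw [Ideal.mem_comap, RingHom.comp_apply, C_mul] at h4
        exact h4
    exact h2 h1
  -- the relations as a finite set
  obtain ⟨Sf, hSf⟩ : ∃ Sf : Finset (MvPolynomial (Option τ) S), Sf =
    insert (EE q u i k v) (insert (C π - X none * X (some i))
      (Finset.univ.image fun a => C (D a) - X none ^ k * X (some i) ^ (k + 1) * sv S i a)) :=
    ⟨_, rfl⟩
  have hSfs : (Sf : Set (MvPolynomial (Option τ) S)) = insert (EE q u i k v) (rels π D k i) := by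
    rw [hSf, Finset.coe_insert, Finset.coe_insert, Finset.coe_image, Finset.coe_univ,
      Set.image_univ]
    rfl
  have hSfc : Sf.card ≤ Fintype.card τ + 2 := by
    rw [hSf]
    refine (Finset.card_insert_le _ _).trans ?_
    have h1 := Finset.card_insert_le (C π - X none * X (some i))
      (Finset.univ.image fun a => C (D a) - X none ^ k * X (some i) ^ (k + 1) * sv S i a)
    have h2 := Finset.card_image_le (s := (Finset.univ : Finset τ))
      (f := fun a => C (D a) - X none ^ k * X (some i) ^ (k + 1) * sv S i a)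
    rw [Finset.card_univ] at h2
    omega
  have hprE : pr (EE q u i k v) = 0 := by
    rw [← RingHom.mem_ker, hker]
    exact Ideal.subset_span (Set.mem_insert _ _)
  have hθs := th_surj Q hg
  obtain ⟨Z, hZ⟩ : ∃ Z, Z = (p.comap pr).map (th Q f) := ⟨_, rfl⟩
  have hZcomap : Z.comap (th Q f) = p.comap pr := by
    rw [hZ, Ideal.comap_map_of_surjective _ hθs]
    exact sup_eq_left.2 (by
      intro x hx
      exact hkerle (by simpa using hx))
  have hZmem : ∀ x, th Q f x ∈ Z ↔ pr x ∈ p := by
    intro x
    rw [← Ideal.mem_comap, hZcomap, Ideal.mem_comap]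
  have hZp : Z.IsPrime := by
    rw [hZ]
    exact Ideal.map_isPrime_of_surjective hθs hkerle
  refine reg_crit_one pr hpr Sf (by rw [hker, hSfs]) p (th Q f) hθs hkerle a ha3 hloc
    (EE q u i k v) hprE ?_ ?_
  · -- the equation is not in the square
    rw [← hZ]
    intro c hc hcE
    obtain ⟨s, hs⟩ : ∃ s : τ → MvPolynomial ρ (S ⧸ Q), s = fun a => th Q f (sv S i a) := ⟨_, rfl⟩
    have hsi : s i = 1 := by
      rw [hs]
      show th Q f (sv S i i) = 1
      unfold sv
      rw [if_pos rfl, map_one]
    have hsb : ∀ b, b ≠ i → s b = f (some b) := by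
      intro b hb
      rw [hs]
      show th Q f (sv S i b) = _
      unfold sv
      rw [if_neg hb, th_X]
    obtain ⟨qb, hqb⟩ : ∃ qb : τ → τ → S ⧸ Q, qb = fun a b => Ideal.Quotient.mk Q (q a b) :=
      ⟨_, rfl⟩
    obtain ⟨P, hP⟩ : ∃ P : MvPolynomial ρ (S ⧸ Q), P = ∑ a, ∑ b,
      algebraMap (S ⧸ Q) (MvPolynomial ρ (S ⧸ Q)) (qb a b) * s a * s b := ⟨_, rfl⟩
    have hθP : th Q f (qq q i) = P := by
      unfold qq
      rw [hP, map_sum]
      refine Finset.sum_congr rfl fun a _ => ?_
      rw [map_sum]
      refine Finset.sum_congr rfl fun b _ => ?_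
      rw [map_mul, map_mul, th_C, hs, hqb, MvPolynomial.algebraMap_eq]
    obtain ⟨t, ht⟩ : ∃ t, t = f (some i) := ⟨_, rfl⟩
    have htZ : t ∈ Z ↔ pr (X (some i)) ∈ p := by rw [ht, ← th_X Q f (some i)]; exact hZmem _
    have hu' : C (Ideal.Quotient.mk Q u) ∉ Z := by
      rw [← th_C Q f, hZmem, hpQ]
      exact hu
    have hEZ : th Q f (EE q u i k v) ∈ Z := by
      rw [hZmem, hprE]
      exact p.zero_mem
    -- the derivations
    have hXne : ∀ r r' : ρ, (X r : MvPolynomial ρ (S ⧸ Q)) = X r' → r = r' := fun r r' h =>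
      MvPolynomial.X_injective h
    have hder : ∀ b, b ≠ i → ∃ r : ρ, (∀ a, pderiv r (s a) = if a = b then 1 else 0) ∧
        pderiv r t = 0 := by
      intro b hb
      obtain ⟨r, hr, hgr⟩ := hfb b hb
      refine ⟨r, ?_, ?_⟩
      · intro a
        by_cases hai : a = i
        · subst hai
          rw [hsi, if_neg (Ne.symm hb)]
          exact pderiv_one
        · obtain ⟨r', hr', hgr'⟩ := hfb a hai
          rw [hsb a hai, hr', pderiv_X]
          by_cases hab : a = b
          · subst hab
            have h1 : r = r' := hXne _ _ (hr.symm.trans hr')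
            rw [if_pos rfl, h1, Pi.single_eq_same]
          · have h1 : r' ≠ r := by
              intro h
              apply hab
              rw [h, hgr] at hgr'
              exact (Option.some_injective _ hgr').symm
            rw [if_neg hab, Pi.single_eq_of_ne h1]
      · rw [ht]
        rcases hf (some i) with h | ⟨r', h, hr'⟩
        · rw [h, map_zero]
        · rw [h, pderiv_X, Pi.single_eq_of_ne]
          intro h1
          rw [h1, hgr] at hr'
          exact hb (Option.some_injective _ hr')
    -- conclusion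
    have hfin : 2 * P ∈ Z → (∀ b, b ≠ i → ∀ r : ρ, (∀ a, pderiv r (s a) = if a = b then 1 else 0) →
        pderiv r t = 0 → pderiv r P ∈ Z) → False := by
      intro h1 h2
      have h3 := core Z (fun a b => algebraMap (S ⧸ Q) (MvPolynomial ρ (S ⧸ Q)) (qb a b)) s i hsi
        (by rw [hP] at h1; exact h1) (by
          intro b hb
          obtain ⟨r, hr, hrt⟩ := hder b hb
          have h4 := h2 b hb r hr hrt
          rw [hP, der_form (pderiv r) qb s b hr] at h4
          exact h4)
      apply hq
      rw [← hpQ, ← hZmem, th_C]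
      have h5 : (Matrix.of fun a b => algebraMap (S ⧸ Q) (MvPolynomial ρ (S ⧸ Q)) (qb a b) +
          algebraMap (S ⧸ Q) (MvPolynomial ρ (S ⧸ Q)) (qb b a)).det
          = C (Ideal.Quotient.mk Q (Matrix.of fun a b => q a b + q b a).det) := by
        rw [← RingHom.comp_apply, RingHom.map_det]
        congr 1
        ext a b
        rw [Matrix.of_apply, RingHom.mapMatrix_apply, Matrix.map_apply, Matrix.of_apply, map_add,
          hqb, RingHom.comp_apply, RingHom.comp_apply, MvPolynomial.algebraMap_eq]
      rw [← h5]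
      exact h3
    by_cases c1 : 2 * k + 2 ≤ v
    · -- the first case
      have hE : th Q f (EE q u i k v) = P := by
        unfold EE
        rw [if_pos c1, map_add, map_mul, map_mul, map_pow, th_X, hfn, zero_pow (by omega),
          zero_mul, zero_mul, add_zero, hθP]
      rw [hE] at hcE hEZ
      exact hfin (Z.mul_mem_left _ hEZ) fun b hb r _ _ => der_mem Z (pderiv r) hc hEZ hcE
    · by_cases c2 : v = 2 * k + 1
      · have hE : th Q f (EE q u i k v) = t * P := by
          unfold EE
          rw [if_neg c1, if_pos c2, map_add, map_mul, map_mul, th_X, th_X, hfn, zero_mul,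
            zero_add, hθP, ht]
        have htZ' : t ∉ Z := fun h => hT c2 (htZ.1 h)
        rw [hE] at hcE hEZ
        have hPZ : P ∈ Z := (hZp.mem_or_mem hEZ).resolve_left htZ'
        refine hfin (Z.mul_mem_left _ hPZ) fun b hb r _ hrt => ?_
        have h1 := der_mem Z (pderiv r) hc hEZ hcE
        rw [Derivation.leibniz, hrt, smul_eq_mul, smul_zero, add_zero] at h1
        exact (hZp.mem_or_mem h1).resolve_left htZ'
      · have hE : th Q f (EE q u i k v) = C (Ideal.Quotient.mk Q u) + t ^ 2 * P := by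
          unfold EE
          rw [if_neg c1, if_neg c2, map_add, map_mul, map_pow, th_X, th_C, hθP, ht]
        rw [hE] at hcE hEZ
        have htZ' : t ∉ Z := by
          intro h
          apply hu'
          refine (Z.add_mem_iff_left ?_).1 hEZ
          rw [pow_two, mul_assoc]
          exact Z.mul_mem_right _ h
        have hPZ : P ∉ Z := by
          intro h
          apply hu'
          exact (Z.add_mem_iff_left (Z.mul_mem_left _ h)).1 hEZ
        refine hfin ?_ fun b hb r _ hrt => ?_
        · -- the variable `t`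
          obtain ⟨r, hr, hgr⟩ := (hf (some i)).resolve_left (by
            intro h
            apply htZ'
            rw [ht, h]
            exact Z.zero_mem)
          have hsr : ∀ a, pderiv r (s a) = 0 := by
            intro a
            by_cases hai : a = i
            · subst hai
              rw [hsi]
              exact pderiv_one
            · obtain ⟨r', hr', hgr'⟩ := hfb a hai
              rw [hsb a hai, hr', pderiv_X, Pi.single_eq_of_ne]
              intro h1
              rw [h1, hgr] at hgr'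
              exact hai (Option.some_injective _ hgr').symm
          have hPr : pderiv r P = 0 := by
            rw [hP]
            exact der_form_zero (pderiv r) qb s hsr
          have h1 := der_mem Z (pderiv r) hc hEZ hcE
          have h2 : pderiv r (C (Ideal.Quotient.mk Q u) + t ^ 2 * P) = 2 * t * P := by
            rw [map_add, pderiv_C, Derivation.leibniz, hPr, smul_zero, zero_add, zero_add,
              Derivation.leibniz_pow, ht, hr, pderiv_X_self]
            simp only [smul_eq_mul, nsmul_eq_mul]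
            push_cast
            ring
          rw [h2] at h1
          have h3 : t * (2 * P) ∈ Z := by
            have e : t * (2 * P) = 2 * t * P := by ring
            rw [e]
            exact h1
          exact (hZp.mem_or_mem h3).resolve_left htZ'
        · have h1 := der_mem Z (pderiv r) hc hEZ hcE
          rw [map_add, pderiv_C, zero_add, Derivation.leibniz, Derivation.leibniz_pow, hrt,
            smul_zero, smul_zero, smul_zero, add_zero, smul_eq_mul] at h1
          refine (hZp.mem_or_mem h1).resolve_left fun h => htZ' ?_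
          exact hZp.mem_of_pow_mem 2 h
  · refine le_trans ?_ hcard
    exact_mod_cast Nat.add_le_add_left hSfc _

end main

section maps

variable {S τ : Type} [CommRing S] [DecidableEq τ] (Q : Ideal S)

/-- The second map of OD-4. -/
noncomputable def f2 (i : τ) : Option τ → MvPolynomial {a : τ // a ≠ i} (S ⧸ Q) :=
  fun o : Option τ => o.elim 0 fun a => if h : a = i then 0 else X ⟨a, h⟩

theorem f2_none (i : τ) : f2 Q i none = 0 := rfl

theorem f2_self (i : τ) : f2 Q i (some i) = 0 := by
  unfold f2
  rw [Option.elim_some, dif_pos rfl]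

theorem f2_ne (i b : τ) (hb : b ≠ i) : f2 Q i (some b) = X ⟨b, hb⟩ := by
  unfold f2
  rw [Option.elim_some, dif_neg hb]

/-- The first map of OD-4. -/
noncomputable def f1 : Option τ → MvPolynomial τ (S ⧸ Q) :=
  fun o : Option τ => o.elim 0 X

end maps

theorem s_od6 (h4 : S_OD4) : S_OD6 := by
  intro S τ A _ _ _ _ _ _ Q hQm π D hπ hD hgen hht q hq u hu i k v hv hv1 pr hpr hker p hp hpQ hw hT
  classical
  have hn : Nontrivial (S ⧸ Q) := Ideal.Quotient.nontrivial_iff.2 hQm.ne_top
  obtain ⟨k1, k2⟩ := h4 (τ := τ) Q (Fintype.card τ + 1) hht i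
  by_cases hTp : pr (X (some i)) ∈ p
  · have k2' : ((Fintype.card τ + 1 + 2 : ℕ) : ℕ∞) ≤ (RingHom.ker (th Q (f2 Q i))).height := k2
    refine main (ρ := {a : τ // a ≠ i}) Q π D hπ hD hgen q hq u hu i k v hv hv1 pr hpr hker p hpQ hT
      (f2 Q i) (fun r => some r.1) (fun r => f2_ne Q i r.1 r.2) ?_ (f2_none Q i)
      (fun b hb => ⟨⟨b, hb⟩, f2_ne Q i b hb, rfl⟩) {X none, X (some i)}
      (Finset.mem_insert_self _ _) ?_ ?_
      (fun _ => Finset.mem_insert_of_mem (Finset.mem_singleton_self _)) ?_
    · rintro (_ | b)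
      · exact Or.inl (f2_none Q i)
      · by_cases hb : b = i
        · left
          rw [hb]
          exact f2_self Q i
        · exact Or.inr ⟨⟨b, hb⟩, f2_ne Q i b hb, rfl⟩
    · rintro (_ | b) hb
      · exact Finset.mem_insert_self _ _
      · by_cases hbi : b = i
        · rw [hbi]
          exact Finset.mem_insert_of_mem (Finset.mem_singleton_self _)
        · exfalso
          rw [f2_ne Q i b hbi] at hb
          exact MvPolynomial.X_ne_zero _ hb
    · intro x hx
      rw [Finset.mem_insert, Finset.mem_singleton] at hx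
      rcases hx with rfl | rfl
      · exact hw
      · exact hTp
    · have h1 : ({X none, X (some i)} : Finset (MvPolynomial (Option τ) S)).card ≤ 2 :=
        Finset.card_le_two
      obtain ⟨m, hm⟩ : ∃ m, m = ({X none, X (some i)} : Finset (MvPolynomial (Option τ) S)).card :=
        ⟨_, rfl⟩
      rw [← hm] at h1 ⊢
      refine le_trans ?_ (add_le_add k2' (le_refl 1))
      have h2 : m + (Fintype.card τ + 2) ≤ Fintype.card τ + 1 + 2 + 1 := by omega
      exact_mod_cast h2
  · have k1' : ((Fintype.card τ + 1 + 1 : ℕ) : ℕ∞) ≤ (RingHom.ker (th Q (f1 (τ := τ) Q))).height :=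
      k1
    refine main (ρ := τ) Q π D hπ hD hgen q hq u hu i k v hv hv1 pr hpr hker p hpQ hT
      (f1 Q) some (fun r => rfl) ?_ rfl (fun b _ => ⟨b, rfl, rfl⟩) {X none}
      (Finset.mem_singleton_self _) ?_ ?_ (fun h => absurd h hTp) ?_
    · rintro (_ | b)
      · exact Or.inl rfl
      · exact Or.inr ⟨b, rfl, rfl⟩
    · rintro (_ | b) hb
      · exact Finset.mem_singleton_self _
      · exfalso
        have hb' : (X b : MvPolynomial τ (S ⧸ Q)) = 0 := hb
        exact MvPolynomial.X_ne_zero b hb'
    · intro x hx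
      rw [Finset.mem_singleton] at hx
      rw [hx]
      exact hw
    · refine le_trans ?_ (add_le_add k1' (le_refl 1))
      rw [Finset.card_singleton]
      have h2 : 1 + (Fintype.card τ + 2) ≤ Fintype.card τ + 1 + 1 + 1 := by omega
      exact_mod_cast h2

end Pool.Agent.Q225.OD
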